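import Pool.Agent.H55.BP.Targets

/-!
# Biplanar drawings (MP_bacf0e_co): the angles swept out by the arcs (helper55)
-/

set_option autoImplicit false

open Finset

namespace Pool.Agent.H55.BPL.ANG

open Pool.Agent.H55.BP

theorem exp_arg (z : ℂ) (h : z ≠ 0) :
    Complex.exp (Complex.I * (Complex.arg z : ℂ)) = z / ‖z‖ := by
  have h1 := Complex.norm_mul_exp_arg_mul_I z
  have h2 : (‖z‖ : ℂ) ≠ 0 := by simpa using h
  rw [mul_comm Complex.I, eq_div_iff h2, mul_comm]
  exact h1

theorem tele (z : ℕ → ℂ) (N : ℕ) (h : ∀ r, z r ≠ 0) :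
    Complex.exp (Complex.I * ((∑ r ∈ range N, Complex.arg (z (r + 1) / z r) : ℝ) : ℂ)) *
      (z 0 / ‖z 0‖) = z N / ‖z N‖ := by
  induction N with
  | zero => simp
  | succ N ih =>
    have h1 : z (N + 1) / z N ≠ 0 := div_ne_zero (h _) (h _)
    have h2 : ∀ r, (‖z r‖ : ℂ) ≠ 0 := fun r => by simpa using h r
    rw [sum_range_succ, Complex.ofReal_add, mul_add, Complex.exp_add, mul_right_comm, ih,
      exp_arg _ h1, norm_div]
    have := h2 N
    have := h2 (N + 1)
    have := h N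
    push_cast
    field_simp

/-- the argument of a product of two numbers near `1` -/
theorem arg_mul_near (z w : ℂ) (hz : ‖z - 1‖ < 1 / 2) (hw : ‖w - 1‖ < 1 / 2) :
    Complex.arg (z * w) = Complex.arg z + Complex.arg w := by
  have key : ∀ z : ℂ, ‖z - 1‖ < 1 / 2 → 0 < z.re := by
    intro z hz
    have h1 := (abs_le.1 (Complex.abs_re_le_norm (z - 1))).1
    have h2 : (z - 1).re = z.re - 1 := by simp
    linarith
  have h1 := key z hz
  have h2 := key w hw
  have hz0 : z ≠ 0 := by rintro rfl; simp at h1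
  have hw0 : w ≠ 0 := by rintro rfl; simp at h2
  have h3 := abs_lt.1 (Complex.abs_arg_lt_pi_div_two_iff.2 (Or.inl h1))
  have h4 := abs_lt.1 (Complex.abs_arg_lt_pi_div_two_iff.2 (Or.inl h2))
  rw [Complex.arg_mul_eq_add_arg_iff hz0 hw0]
  constructor <;> linarith [h3.1, h3.2, h4.1, h4.2]

/-- the grid identity -/
theorem grid (G : ℕ → ℕ → ℂ) (N : ℕ) (h0 : ∀ r s, G r s ≠ 0)
    (h1 : ∀ r s, ‖G (r + 1) s / G r s - 1‖ < 1 / 2)
    (h2 : ∀ r s, ‖G r (s + 1) / G r s - 1‖ < 1 / 2) :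
    (∑ r ∈ range N, Complex.arg (G (r + 1) N / G r N)) -
      (∑ r ∈ range N, Complex.arg (G (r + 1) 0 / G r 0)) =
    (∑ s ∈ range N, Complex.arg (G N (s + 1) / G N s)) -
      (∑ s ∈ range N, Complex.arg (G 0 (s + 1) / G 0 s)) := by
  have cell : ∀ r s, Complex.arg (G (r + 1) (s + 1) / G r (s + 1)) -
      Complex.arg (G (r + 1) s / G r s) = Complex.arg (G (r + 1) (s + 1) / G (r + 1) s) -
      Complex.arg (G r (s + 1) / G r s) := by
    intro r s
    have e1 := arg_mul_near _ _ (h1 r s) (h2 (r + 1) s)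
    have e2 := arg_mul_near _ _ (h2 r s) (h1 r (s + 1))
    have e3 : G (r + 1) s / G r s * (G (r + 1) (s + 1) / G (r + 1) s) =
        G r (s + 1) / G r s * (G (r + 1) (s + 1) / G r (s + 1)) := by
      have := h0 r s
      have := h0 (r + 1) s
      have := h0 r (s + 1)
      field_simp
    rw [e3] at e1
    linarith
  calc _ = ∑ r ∈ range N, (Complex.arg (G (r + 1) N / G r N) -
        Complex.arg (G (r + 1) 0 / G r 0)) := by rw [sum_sub_distrib]
    _ = ∑ r ∈ range N, ∑ s ∈ range N, (Complex.arg (G (r + 1) (s + 1) / G r (s + 1)) -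
        Complex.arg (G (r + 1) s / G r s)) := by
        refine sum_congr rfl fun r _ => ?_
        rw [sum_range_sub (fun s => Complex.arg (G (r + 1) s / G r s))]
    _ = ∑ s ∈ range N, ∑ r ∈ range N, (Complex.arg (G (r + 1) (s + 1) / G (r + 1) s) -
        Complex.arg (G r (s + 1) / G r s)) := by
        rw [sum_comm]
        exact sum_congr rfl fun s _ => sum_congr rfl fun r _ => cell r s
    _ = ∑ s ∈ range N, (Complex.arg (G N (s + 1) / G N s) -
        Complex.arg (G 0 (s + 1) / G 0 s)) := by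
        refine sum_congr rfl fun s _ => ?_
        rw [sum_range_sub (fun r => Complex.arg (G r (s + 1) / G r s))]
    _ = _ := by rw [sum_sub_distrib]

/-- two disjoint paths have a positive distance -/
theorem dist_pos {a b c d : ℂ} (γ : Path a b) (δ : Path c d)
    (h : Disjoint (Set.range γ) (Set.range δ)) : ∃ e : ℝ, 0 < e ∧ ∀ s t, e ≤ ‖γ s - δ t‖ := by
  have hc : Continuous fun x : unitInterval × unitInterval => ‖γ x.1 - δ x.2‖ := by fun_prop
  obtain ⟨x, -, hx⟩ := isCompact_univ.exists_isMinOn Set.univ_nonempty hc.continuousOn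
  refine ⟨‖γ x.1 - δ x.2‖, ?_, fun s t => hx (Set.mem_univ (s, t))⟩
  rw [norm_pos_iff, sub_ne_zero]
  intro he
  exact Set.disjoint_left.1 h ⟨x.1, rfl⟩ ⟨x.2, he.symm⟩

/-- the point of the path with the number `r` of `N` -/
noncomputable def F {a b : ℂ} (γ : Path a b) (N r : ℕ) : ℂ := γ.extend ((r : ℝ) / N)

theorem F_mem {a b : ℂ} (γ : Path a b) (N r : ℕ) : ∃ t, F γ N r = γ t :=
  ⟨_, rfl⟩

theorem F_zero {a b : ℂ} (γ : Path a b) (N : ℕ) : F γ N 0 = a := by
  simp [F]

theorem F_one {a b : ℂ} (γ : Path a b) (N : ℕ) (h : N ≠ 0) : F γ N N = b := by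
  have : (N : ℝ) ≠ 0 := by exact_mod_cast h
  simp [F, div_self this]

theorem F_step {a b : ℂ} (γ : Path a b) (e : ℝ) (he : 0 < e) :
    ∀ᶠ N : ℕ in Filter.atTop, ∀ r, ‖F γ N (r + 1) - F γ N r‖ < e := by
  have huc : UniformContinuous γ.extend :=
    (CompactSpace.uniformContinuous_of_continuous γ.continuous).comp
      (LipschitzWith.projIcc zero_le_one).uniformContinuous
  obtain ⟨δ, hδ, h⟩ := Metric.uniformContinuous_iff.1 huc e he
  obtain ⟨N0, hN0⟩ := exists_nat_one_div_lt hδ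
  filter_upwards [Filter.eventually_gt_atTop N0] with N hN r
  have hNp : (0 : ℝ) < N := by exact_mod_cast (Nat.zero_le N0).trans_lt hN
  have h1 : (1 : ℝ) / N < δ := by
    refine lt_of_le_of_lt ?_ hN0
    apply one_div_le_one_div_of_le (by positivity)
    exact_mod_cast hN
  have := @h (((r + 1 : ℕ) : ℝ) / N) ((r : ℝ) / N) (by
    rw [Real.dist_eq, ← sub_div, abs_of_nonneg (by push_cast; simp)]
    push_cast
    rw [add_sub_cancel_left]
    exact h1)
  rwa [dist_eq_norm] at this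

/-- the fine grids for two disjoint paths -/
theorem fine {a b c d : ℂ} (γ : Path a b) (δ : Path c d)
    (h : Disjoint (Set.range γ) (Set.range δ)) : ∀ᶠ N : ℕ in Filter.atTop,
    (∀ r s, ‖(F γ N (r + 1) - F δ N s) / (F γ N r - F δ N s) - 1‖ < 1 / 2) ∧
    (∀ r s, ‖(F γ N r - F δ N (s + 1)) / (F γ N r - F δ N s) - 1‖ < 1 / 2) := by
  obtain ⟨e, he, hd⟩ := dist_pos γ δ h
  have hd' : ∀ N r s, e ≤ ‖F γ N r - F δ N s‖ := by
    intro N r s
    obtain ⟨t, ht⟩ := F_mem γ N r
    obtain ⟨t', ht'⟩ := F_mem δ N s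
    rw [ht, ht']
    exact hd t t'
  have key : ∀ x y : ℂ, e ≤ ‖x‖ → ‖y - x‖ < e / 2 → ‖y / x - 1‖ < 1 / 2 := by
    intro x y hx hy
    have hx0 : x ≠ 0 := by
      rintro rfl
      rw [norm_zero] at hx
      linarith
    have : y / x - 1 = (y - x) / x := by field_simp
    rw [this, norm_div, div_lt_iff₀ (norm_pos_iff.2 hx0)]
    linarith
  filter_upwards [F_step γ (e / 2) (by linarith), F_step δ (e / 2) (by linarith)] with N h1 h2
  refine ⟨fun r s => key _ _ (hd' N r s) ?_, fun r s => key _ _ (hd' N r s) ?_⟩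
  · have : F γ N (r + 1) - F δ N s - (F γ N r - F δ N s) = F γ N (r + 1) - F γ N r := by ring
    rw [this]
    exact h1 r
  · have : F γ N r - F δ N (s + 1) - (F γ N r - F δ N s) = -(F δ N (s + 1) - F δ N s) := by ring
    rw [this, norm_neg]
    exact h2 s

end Pool.Agent.H55.BPL.ANG

namespace Pool.Agent.H55.BPL

open Pool.Agent.H55.BP ANG

theorem pf_ANG : T_ANG := by
  intro p q γ hdis
  have hother : ∀ j : Fin 3, ∃ l, l ≠ j := by decide
  have hev : ∀ᶠ N : ℕ in Filter.atTop, ∀ i j k l : Fin 3, i ≠ k → j ≠ l →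
      (∀ r s, ‖(F (γ i j) N (r + 1) - F (γ k l) N s) / (F (γ i j) N r - F (γ k l) N s) - 1‖
        < 1 / 2) ∧
      (∀ r s, ‖(F (γ i j) N r - F (γ k l) N (s + 1)) / (F (γ i j) N r - F (γ k l) N s) - 1‖
        < 1 / 2) := by
    simp only [Filter.eventually_all]
    intro i j k l hik hjl
    exact fine _ _ (hdis i j k l hik hjl)
  obtain ⟨N, hN, hN0⟩ := (hev.and (Filter.eventually_gt_atTop 0)).exists
  have hne : ∀ i j k l, i ≠ k → j ≠ l → ∀ r s, F (γ i j) N r - F (γ k l) N s ≠ 0 := by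
    intro i j k l hik hjl r s he
    obtain ⟨t, ht⟩ := F_mem (γ i j) N r
    obtain ⟨t', ht'⟩ := F_mem (γ k l) N s
    rw [sub_eq_zero, ht, ht'] at he
    exact Set.disjoint_left.1 (hdis i j k l hik hjl) ⟨t, rfl⟩ ⟨t', he.symm⟩
  have hnp : ∀ i j k, i ≠ k → ∀ r, F (γ i j) N r - p k ≠ 0 := by
    intro i j k hik r
    obtain ⟨l, hl⟩ := hother j
    have := hne i j k l hik hl.symm r 0
    rwa [F_zero] at this
  have hnq : ∀ i j l, j ≠ l → ∀ r, F (γ i j) N r - q l ≠ 0 := by
    intro i j l hjl r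
    obtain ⟨k, hk⟩ := hother i
    have := hne i j k l hk.symm hjl r N
    rwa [F_one _ _ hN0.ne'] at this
  refine ⟨fun i j k => ∑ r ∈ range N,
      Complex.arg ((F (γ i j) N (r + 1) - p k) / (F (γ i j) N r - p k)),
    fun i j l => ∑ r ∈ range N,
      Complex.arg ((F (γ i j) N (r + 1) - q l) / (F (γ i j) N r - q l)), ?_, ?_, ?_⟩
  · intro i j k hik
    have := tele (fun r => F (γ i j) N r - p k) N (hnp i j k hik)
    simpa only [F_zero, F_one _ _ hN0.ne'] using this
  · intro i j l hjl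
    have := tele (fun r => F (γ i j) N r - q l) N (hnq i j l hjl)
    simpa only [F_zero, F_one _ _ hN0.ne'] using this
  · intro i j k l hik hjl
    have h := grid (fun r s => F (γ i j) N r - F (γ k l) N s) N (hne i j k l hik hjl)
      (hN i j k l hik hjl).1 (hN i j k l hik hjl).2
    simp only [F_zero, F_one _ _ hN0.ne'] at h
    have e1 : ∀ (x y z : ℂ), (x - y) / (x - z) = (y - x) / (z - x) := by
      intro x y z
      rw [← neg_sub y x, ← neg_sub z x, neg_div_neg_eq]
    simp only [e1 (q j), e1 (p i)] at h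
    linarith

end Pool.Agent.H55.BPL
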