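import Pool.Agent.H55.BP.Targets

/-!
# Biplanar drawings (MP_bacf0e_co): the templates (helper55)
-/

set_option autoImplicit false

open Finset

namespace Pool.Agent.H55.BPL

open Pool.Agent.H55.BP

/-- the template for `K_{5,m}` -/
def t5 : Tmpl 5 12 where
  w := ![(0, -240), (-1, 2400), (-400, 0), (400, 0), (0, -800)]
  b := ![(18, -77), (2001, -399), (138, -361), (-240, 1120), (-140, -360), (239, 1122), (-11, 210), (7, -477), (1202, -201), (-196, -117), (-1200, -200), (210, -116)]
  N := ![![true, false, true, true, false],
    ![false, true, false, false, true],
    ![true, false, false, true, true],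
    ![false, true, true, false, false],
    ![true, false, true, false, true],
    ![false, true, false, true, false],
    ![false, true, true, true, false],
    ![true, false, false, false, true],
    ![false, true, false, true, true],
    ![true, false, true, false, false],
    ![false, true, true, false, true],
    ![true, false, false, true, false]]

/-- the template for `K_{4,m}` -/
def t4 : Tmpl 4 1 where
  w := ![(0, 1), (0, -1), (-5, 1), (-5, -1)]
  b := ![(2, 0)]
  N := ![![true, true, false, false]]

/-- the template for `K_{3,m}` -/
def t3 : Tmpl 3 2 where
  w := ![(0, 10), (0, -10), (5, -20)]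
  b := ![(20, 0), (20, -30)]
  N := ![![true, true, false],
    ![false, false, true]]

/-- the template for `K_{2,m}` -/
def t2 : Tmpl 2 1 where
  w := ![(0, 1), (-5, 1)]
  b := ![(2, 0)]
  N := ![![true, false]]

/-- the template for `K_{1,m}` -/
def t1 : Tmpl 1 2 where
  w := ![(0, 1)]
  b := ![(0, 0), (10, -5)]
  N := ![![true],
    ![false]]

theorem t5_ok : t5.Ok (univ.filter fun k => k.val % 2 = 0) where
  ww := by decide +kernel
  wb := by decide +kernel
  bb := by decide +kernel
  ow := by decide +kernel
  ob := by decide +kernel
  sp := by decide +kernel
  sd := by decide +kernel
  sc := by decide +kernel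

theorem t4_ok : t4.Ok (∅) where
  ww := by decide +kernel
  wb := by decide +kernel
  bb := by decide +kernel
  ow := by decide +kernel
  ob := by decide +kernel
  sp := by decide +kernel
  sd := by decide +kernel
  sc := by decide +kernel

theorem t3_ok : t3.Ok (∅) where
  ww := by decide +kernel
  wb := by decide +kernel
  bb := by decide +kernel
  ow := by decide +kernel
  ob := by decide +kernel
  sp := by decide +kernel
  sd := by decide +kernel
  sc := by decide +kernel

theorem t2_ok : t2.Ok (∅) where
  ww := by decide +kernel
  wb := by decide +kernel
  bb := by decide +kernel
  ow := by decide +kernel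
  ob := by decide +kernel
  sp := by decide +kernel
  sd := by decide +kernel
  sc := by decide +kernel

theorem t1_ok : t1.Ok (∅) where
  ww := by decide +kernel
  wb := by decide +kernel
  bb := by decide +kernel
  ow := by decide +kernel
  ob := by decide +kernel
  sp := by decide +kernel
  sd := by decide +kernel
  sc := by decide +kernel

end Pool.Agent.H55.BPL
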