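import Pool.Agent.H55.BPL.REL
import Pool.Agent.H55.BPL.DAT

/-!
# Biplanar drawings (MP_bacf0e_co): assembly (helper55)
-/

set_option autoImplicit false

open Finset

namespace Pool.Agent.H55.BPL

open Pool.Agent.H55.BP

/-- the antimorphism made of permutations of the white and of the black vertices -/
theorem antim {n m : ℕ} (A : Fin n → Fin m → Bool) (σ : Fin n ≃ Fin n) (τ : Fin m ≃ Fin m)
    (h : ∀ i j, A (σ i) (τ j) = !A i j) :
    (∀ u v, (K n m).Adj u v ↔ (K n m).Adj (Equiv.sumCongr σ τ u) (Equiv.sumCongr σ τ v)) ∧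
    (∀ u v, (K n m).Adj u v →
      ((BG A).Adj u v ↔ ¬ (BG A).Adj (Equiv.sumCongr σ τ u) (Equiv.sumCongr σ τ v))) := by
  constructor
  · rintro (i | i) (j | j) <;> simp [completeBipartiteGraph]
  · rintro (i | i) (j | j) <;> simp [completeBipartiteGraph, BG, h]

theorem BG_le {n m : ℕ} (A : Fin n → Fin m → Bool) : BG A ≤ K n m := by
  rintro (i | i) (j | j) <;> simp [completeBipartiteGraph, BG]

/-- the permutation of the black vertices which exchanges `2 i` and `2 i + 1` -/
def swp (m : ℕ) (hm : Even m) : Fin m ≃ Fin m :=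
  Function.Involutive.toPerm
    (fun j => ⟨if j.val % 2 = 0 then j.val + 1 else j.val - 1, by
      obtain ⟨k, hk⟩ := hm
      have := j.2
      split_ifs <;> omega⟩)
    (by
      intro j
      ext
      simp only
      split_ifs <;> omega)

theorem swp_val (m : ℕ) (hm : Even m) (j : Fin m) :
    (swp m hm j).val = if j.val % 2 = 0 then j.val + 1 else j.val - 1 := rfl

/-- the construction from a template with complementary pairs of types -/
theorem q1_pairs (hP : T_PRM) {n p : ℕ} [NeZero p] (T : Tmpl n p) (C : Finset (Fin p))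
    (hT : T.Ok C) (hp : p % 2 = 0)
    (hN : ∀ k : Fin p, k.val % 2 = 0 → ∀ i, T.N (ty p (k.val + 1)) i = !T.N k i)
    (m : ℕ) (hm : Even m)
    (hb : ∀ B : Biplanar (K n m), 2 * (same p m C).card ≤ B.crossings) : Q1 n m := by
  obtain ⟨D, hD⟩ := hP n p T C hT m
  have hA : ∀ i j, T.adj m (Equiv.refl _ i) (swp m hm j) = !T.adj m i j := by
    intro i j
    have key : ∀ j : ℕ, j % 2 = 0 → T.N (ty p (j + 1)) i = !T.N (ty p j) i := by
      intro j hj
      have h1 : (ty p j).val = j % p := rfl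
      have h2 : (ty p j).val % 2 = 0 := by
        rw [h1, Nat.mod_mod_of_dvd _ (Nat.dvd_of_mod_eq_zero hp)]
        exact hj
      rw [← hN (ty p j) h2]
      congr 1
      ext
      change (j + 1) % p = (j % p + 1) % p
      simp [Nat.add_mod]
    change T.N (ty p (swp m hm j).val) i = !T.N (ty p j.val) i
    rw [swp_val]
    split_ifs with h
    · exact key _ h
    · have h1 := key (j.val - 1) (by omega)
      rw [show j.val - 1 + 1 = j.val by omega] at h1
      rw [h1, Bool.not_not]
  obtain ⟨h1, h2⟩ := antim (T.adj m) (Equiv.refl _) (swp m hm) hA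
  exact pf_UPP n m _ (BG (T.adj m)) _ D (BG_le _) h1 h2 hD hb

/-- the construction from a template with one type -/
theorem q1_one (hP : T_PRM) {n : ℕ} (T : Tmpl n 1) (hT : T.Ok ∅) (σ : Fin n ≃ Fin n)
    (hN : ∀ i, T.N 0 (σ i) = !T.N 0 i) (m : ℕ) : Q1 n m := by
  obtain ⟨D, hD⟩ := hP n 1 T ∅ hT m
  have hA : ∀ i j, T.adj m (σ i) (Equiv.refl _ j) = !T.adj m i j := by
    intro i j
    have : ty 1 j.val = 0 := Subsingleton.elim _ _
    simp only [Tmpl.adj, Equiv.refl_apply, this, hN]
  obtain ⟨h1, h2⟩ := antim (T.adj m) σ (Equiv.refl _) hA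
  refine pf_UPP n m _ (BG (T.adj m)) _ D (BG_le _) h1 h2 hD fun B => ?_
  simp [same]

theorem main_le (hP : T_PRM) (hT : T_TUR) (hC : T_CNT) (n m : ℕ) (hn : 1 ≤ n) (h5 : n ≤ 5)
    (h : Even (n * m)) : Q1 n m := by
  rw [Nat.even_mul] at h
  have hz : ∀ (n p : ℕ) [NeZero p] (B : Biplanar (K n m)), 2 * (same p m ∅).card ≤ B.crossings := by
    intro n p _ B
    simp [same]
  interval_cases n
  · exact q1_pairs hP t1 ∅ t1_ok rfl (by decide) m (h.resolve_left (by decide)) (hz 1 2)
  · exact q1_one hP t2 t2_ok (Equiv.swap 0 1) (by decide) m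
  · exact q1_pairs hP t3 ∅ t3_ok rfl (by decide) m (h.resolve_left (by decide)) (hz 3 2)
  · exact q1_one hP t4 t4_ok ((Equiv.swap 0 2).trans (Equiv.swap 1 3)) (by decide) m
  · have hm := h.resolve_left (by decide)
    exact q1_pairs hP t5 _ t5_ok rfl (by decide) m hm fun B => (hC m hm).trans (hT m B)

/-- the main theorem, from the targets -/
theorem main (hP : T_PRM) (hT : T_TUR) (hC : T_CNT) (n m : ℕ) (hn : 1 ≤ n) (hm : 1 ≤ m)
    (h5 : min n m ≤ 5) (h : Even (n * m)) : Q1 n m := by
  rcases min_le_iff.1 h5 with h5 | h5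
  · exact main_le hP hT hC n m hn h5 h
  · exact pf_SWP m n (main_le hP hT hC m n hm h5 (by rwa [mul_comm]))

end Pool.Agent.H55.BPL
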