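import Pool.Agent.H55.BPL.ASM
import Pool.Agent.H55.BPL.ANG
import Pool.Agent.H67.BP.PAR
import Pool.Agent.H11.BPL.CTR
import Pool.Agent.H1.BPL.EB
import Pool.Agent.H23.BPL.DWD
import Pool.Agent.H23.BPL.CRB
import Pool.Agent.H23.BPL.TUR
import Pool.Agent.H23.BPL.CNT
import Pool.Agent.H33.BPL.EUL
import Pool.Agent.H33.BPL.CER
import Pool.Agent.H79.BPL.SL
import Pool.Agent.H4.BPL.PRM

/-!
# Biplanar drawings (MP_bacf0e_co): all modules together (helper55)
-/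

set_option autoImplicit false

namespace Pool.Agent.H55.BPL

open Pool.Agent.H55.BP

theorem n33 : T_N33 := Pool.Agent.H67.BP.pf_N33 Pool.Agent.H67.BP.pf_PAR pf_ANG
theorem eb : T_EB := Pool.Agent.H1.BPL.pf_EB Pool.Agent.H11.BPL.pf_CTR n33
theorem dwd : T_DWD := Pool.Agent.H23.BPL.pf_DWD
theorem crb : T_CRB := Pool.Agent.H23.BPL.pf_CRB eb dwd
theorem eul : T_EUL := Pool.Agent.H33.BPL.pf_EUL crb
theorem tur : T_TUR := Pool.Agent.H23.BPL.pf_TUR eb dwd
theorem sl : T_SL := Pool.Agent.H79.BPL.pf_SL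
theorem prm : T_PRM := Pool.Agent.H4.BPL.pf_PRM sl
theorem cer : T_CER := Pool.Agent.H33.BPL.pf_CER sl

/-- `K_{n,m}` with `min n m ≤ 5` and `n m` even has an optimal and self-complementary biplanar
drawing. -/
theorem main_five (n m : ℕ) (hn : 1 ≤ n) (hm : 1 ≤ m) (h5 : min n m ≤ 5) (h : Even (n * m)) :
    Q1 n m := main prm tur Pool.Agent.H23.BPL.pf_CNT n m hn hm h5 h

end Pool.Agent.H55.BPL
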