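import Pool.Agent.H55.BP.Targets

/-!
# Relabelling of drawings; the rows UPP and SWP (helper55)
-/

set_option autoImplicit false

open Finset

namespace Pool.Agent.H55.BPL

open Pool.Agent.H55.BP

section relabel

variable {V V' : Type} {G : SimpleGraph V} {G' : SimpleGraph V'}

theorem adj_symm (e : V ≃ V') (h : ∀ u v, G.Adj u v ↔ G'.Adj (e u) (e v)) (u v : V')
    (huv : G'.Adj u v) : G.Adj (e.symm u) (e.symm v) := by
  rw [h, Equiv.apply_symm_apply, Equiv.apply_symm_apply]
  exact huv

theorem crossSet_relabel (e : V ≃ V') (h : ∀ u v, G.Adj u v ↔ G'.Adj (e u) (e v))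
    (arc : V → V → ℝ → ℂ) :
    crossSet G' (fun u v => arc (e.symm u) (e.symm v)) =
      (Prod.map (Sym2.map (Sym2.map e)) id) '' crossSet G arc := by
  ext ⟨x, z⟩
  constructor
  · rintro ⟨a, b, c, d, hab, hcd, hne, hx, h1, h2⟩
    refine ⟨(s(s(e.symm a, e.symm b), s(e.symm c, e.symm d)), z),
      ⟨e.symm a, e.symm b, e.symm c, e.symm d, adj_symm e h a b hab, adj_symm e h c d hcd, ?_, rfl,
        h1, h2⟩, ?_⟩
    · intro heq
      apply hne
      have h3 := congrArg (Sym2.map e) heq
      simpa using h3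
    · simp only [Prod.map, id, Sym2.map_mk, Equiv.apply_symm_apply, Prod.mk.injEq, and_true]
      exact hx.symm
  · rintro ⟨⟨y, w⟩, ⟨a, b, c, d, hab, hcd, hne, hy, h1, h2⟩, hxy⟩
    simp only [Prod.map, id, Prod.mk.injEq] at hxy
    obtain ⟨hx, rfl⟩ := hxy
    simp only at hy h1 h2
    refine ⟨e a, e b, e c, e d, (h a b).1 hab, (h c d).1 hcd, ?_, ?_, ?_, ?_⟩
    · intro heq
      apply hne
      have h3 := congrArg (Sym2.map e.symm) heq
      simpa using h3
    · simp only
      rw [← hx, hy]
      simp
    · simpa using h1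
    · simpa using h2

/-- the relabelled drawing -/
def relabel (e : V ≃ V') (h : ∀ u v, G.Adj u v ↔ G'.Adj (e u) (e v)) (D : Drawing G) :
    Drawing G' where
  pt v := D.pt (e.symm v)
  arc u v := D.arc (e.symm u) (e.symm v)
  pt_inj := D.pt_inj.comp e.symm.injective
  cont u v huv := D.cont _ _ (adj_symm e h u v huv)
  zero u v huv := D.zero _ _ (adj_symm e h u v huv)
  one u v huv := D.one _ _ (adj_symm e h u v huv)
  rev u v huv := D.rev _ _ (adj_symm e h u v huv)
  inj u v huv := D.inj _ _ (adj_symm e h u v huv)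
  avoid u v huv t ht w := D.avoid _ _ (adj_symm e h u v huv) t ht _
  fin := by
    rw [crossSet_relabel e h]
    exact D.fin.image _

theorem relabel_crossings (e : V ≃ V') (h : ∀ u v, G.Adj u v ↔ G'.Adj (e u) (e v))
    (D : Drawing G) : (relabel e h D).crossings = D.crossings := by
  unfold Drawing.crossings
  change (crossSet G' (fun u v => D.arc (e.symm u) (e.symm v))).ncard = _
  rw [crossSet_relabel e h]
  refine Set.ncard_image_of_injective _ ?_
  exact (Sym2.map.injective (Sym2.map.injective e.injective)).prodMap Function.injective_id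

end relabel

theorem pf_UPP : T_UPP := by
  intro n m k G φ D hG hK hφ hk hopt
  have h : ∀ u v, G.Adj u v ↔ ((K n m) \ G).Adj (φ u) (φ v) := by
    intro u v
    rw [SimpleGraph.sdiff_adj]
    constructor
    · intro huv
      have h1 := hG huv
      exact ⟨(hK u v).1 h1, (hφ u v h1).1 huv⟩
    · rintro ⟨h1, h2⟩
      have h3 := (hK u v).2 h1
      exact (hφ u v h3).2 h2
  let B : Biplanar (K n m) :=
    { G₁ := G
      G₂ := (K n m) \ G
      sup := by
        ext u v
        rw [SimpleGraph.sup_adj, SimpleGraph.sdiff_adj]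
        constructor
        · rintro (h1 | h1)
          · exact hG h1
          · exact h1.1
        · intro h1
          by_cases h2 : G.Adj u v
          · exact Or.inl h2
          · exact Or.inr ⟨h1, h2⟩
      disj := disjoint_sdiff_self_right
      D₁ := D
      D₂ := relabel φ h D }
  refine ⟨B, ?_, φ, h, ?_, ?_⟩
  · intro B'
    have h1 : B.crossings = D.crossings + D.crossings := by
      change D.crossings + (relabel φ h D).crossings = _
      rw [relabel_crossings]
    have h2 := hopt B'
    omega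
  · intro v
    change D.pt (φ.symm (φ v)) = D.pt v
    rw [Equiv.symm_apply_apply]
  · intro u v _ t _
    change D.arc (φ.symm (φ u)) (φ.symm (φ v)) t = D.arc u v t
    rw [Equiv.symm_apply_apply, Equiv.symm_apply_apply]

section transport

variable {V V' : Type} {G : SimpleGraph V} {G' : SimpleGraph V'}

theorem comap_adj (e : V ≃ V') (H : SimpleGraph V) (u v : V) :
    H.Adj u v ↔ (H.comap e.symm).Adj (e u) (e v) := by
  simp

/-- transport of a biplanar drawing -/
def transport (e : V ≃ V') (h : ∀ u v, G.Adj u v ↔ G'.Adj (e u) (e v)) (B : Biplanar G) :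
    Biplanar G' where
  G₁ := B.G₁.comap e.symm
  G₂ := B.G₂.comap e.symm
  sup := by
    ext u v
    have h1 : (B.G₁ ⊔ B.G₂).Adj (e.symm u) (e.symm v) ↔ G.Adj (e.symm u) (e.symm v) := by
      rw [B.sup]
    rw [SimpleGraph.sup_adj] at h1
    rw [SimpleGraph.sup_adj, SimpleGraph.comap_adj, SimpleGraph.comap_adj, h1, h]
    simp
  disj := by
    rw [disjoint_iff_inf_le]
    intro u v huv
    rw [SimpleGraph.inf_adj, SimpleGraph.comap_adj, SimpleGraph.comap_adj] at huv
    have h1 := disjoint_iff_inf_le.1 B.disj (v := e.symm u) (w := e.symm v) huv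
    exact absurd h1 (by simp)
  D₁ := relabel e (comap_adj e B.G₁) B.D₁
  D₂ := relabel e (comap_adj e B.G₂) B.D₂

theorem transport_crossings (e : V ≃ V') (h : ∀ u v, G.Adj u v ↔ G'.Adj (e u) (e v))
    (B : Biplanar G) : (transport e h B).crossings = B.crossings := by
  unfold Biplanar.crossings
  change (relabel e (comap_adj e B.G₁) B.D₁).crossings +
    (relabel e (comap_adj e B.G₂) B.D₂).crossings = _
  rw [relabel_crossings, relabel_crossings]

end transport

theorem pf_SWP : T_SWP := by
  intro n m h
  obtain ⟨B, hopt, φ, h1, h2, h3⟩ := h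
  let e : (Fin n ⊕ Fin m) ≃ (Fin m ⊕ Fin n) := Equiv.sumComm _ _
  have he : ∀ u v, (K n m).Adj u v ↔ (K m n).Adj (e u) (e v) := by
    rintro (u | u) (v | v) <;> simp [e, K, completeBipartiteGraph]
  have he' : ∀ u v, (K m n).Adj u v ↔ (K n m).Adj (e.symm u) (e.symm v) := by
    rintro (u | u) (v | v) <;> simp [e, K, completeBipartiteGraph]
  refine ⟨transport e he B, ?_, ((e.symm.trans φ).trans e), ?_, ?_, ?_⟩
  · intro B'
    have h4 := hopt (transport e.symm he' B')
    rw [transport_crossings] at h4
    rw [transport_crossings]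
    exact h4
  · intro u v
    change (B.G₁.comap e.symm).Adj u v ↔ (B.G₂.comap e.symm).Adj (e (φ (e.symm u)))
      (e (φ (e.symm v)))
    rw [SimpleGraph.comap_adj, SimpleGraph.comap_adj, Equiv.symm_apply_apply,
      Equiv.symm_apply_apply]
    exact h1 _ _
  · intro v
    change B.D₂.pt (e.symm (e (φ (e.symm v)))) = B.D₁.pt (e.symm v)
    rw [Equiv.symm_apply_apply]
    exact h2 _
  · intro u v huv t ht
    change B.D₂.arc (e.symm (e (φ (e.symm u)))) (e.symm (e (φ (e.symm v)))) t =
      B.D₁.arc (e.symm u) (e.symm v) t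
    rw [Equiv.symm_apply_apply, Equiv.symm_apply_apply]
    exact h3 _ _ huv t ht

end Pool.Agent.H55.BPL
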